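import Mathlib

/-!
Self-interest cumulative subtraction games: every tie-breaking discrepancy is bounded by
`min S - 1`, uniformly in the heap size.
-/

namespace Pool.Agent.Results.MP_5cfb27_co.DiscrepancyBound

/-- A tie-breaking convention: friendly or antagonistic. -/
inductive Conv
  | F
  | A
  deriving DecidableEq

/-- `val S c d h` is the pair of equilibrium totals (first player, second player) from the heap
`h` when the mover uses convention `c` and the other player convention `d`.
If no `s ∈ S` with `0 < s ≤ h` exists it is `(0, 0)`.  Otherwise every such `s` gives the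
candidate pair `(s + second total of (h - s), first total of (h - s))`, computed with the two
conventions swapped; the mover restricts to the candidates whose first coordinate is the largest
one, and takes the largest (for `F`) or least (for `A`) second coordinate among those. -/
noncomputable def val (S : Finset ℕ) (c d : Conv) (h : ℕ) : ℕ × ℕ :=
  let cand : Set (ℕ × ℕ) := {p | ∃ s, ∃ _ : s ∈ S ∧ 0 < s ∧ s ≤ h,
    p = (s + (val S d c (h - s)).2, (val S d c (h - s)).1)}
  let best : ℕ := sSup (Prod.fst '' cand)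
  let ties : Set ℕ := {y | (best, y) ∈ cand}
  match c with
  | Conv.F => (best, sSup ties)
  | Conv.A => (best, sInf ties)
termination_by h
decreasing_by all_goals omega

/-- The total of player `i` (`false` is the first player, `true` the second). -/
noncomputable def total (S : Finset ℕ) (c d : Conv) (i : Bool) (h : ℕ) : ℕ :=
  if i then (val S c d h).2 else (val S c d h).1

/-- The set of candidate pairs. -/
def cand (S : Finset ℕ) (c d : Conv) (h : ℕ) : Set (ℕ × ℕ) :=
  {p | ∃ s, s ∈ S ∧ 0 < s ∧ s ≤ h ∧ p = (s + (val S d c (h - s)).2, (val S d c (h - s)).1)}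

theorem val_eq (S : Finset ℕ) (c d : Conv) (h : ℕ) :
    val S c d h =
      (sSup (Prod.fst '' cand S c d h),
        match c with
        | Conv.F => sSup {y | (sSup (Prod.fst '' cand S c d h), y) ∈ cand S c d h}
        | Conv.A => sInf {y | (sSup (Prod.fst '' cand S c d h), y) ∈ cand S c d h}) := by
  have hc : {p : ℕ × ℕ | ∃ s, ∃ _ : s ∈ S ∧ 0 < s ∧ s ≤ h,
      p = (s + (val S d c (h - s)).2, (val S d c (h - s)).1)} = cand S c d h := by
    ext p
    simp [cand, and_assoc]
  rw [val.eq_def]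
  simp only [hc]
  cases c <;> rfl

theorem cand_finite (S : Finset ℕ) (c d : Conv) (h : ℕ) : (cand S c d h).Finite := by
  refine Set.Finite.subset (S.finite_toSet.image
    (fun s => (s + (val S d c (h - s)).2, (val S d c (h - s)).1))) ?_
  rintro p ⟨s, hs, -, -, rfl⟩
  exact ⟨s, hs, rfl⟩

/-- With no legal move the outcome is `(0,0)`. -/
theorem val_of_no_move (S : Finset ℕ) (c d : Conv) (h : ℕ)
    (hn : ∀ s ∈ S, 0 < s → h < s) : val S c d h = (0, 0) := by
  have he : cand S c d h = ∅ := by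
    ext p
    simp only [cand, Set.mem_ofPred_eq, Set.mem_empty_iff_false, iff_false]
    rintro ⟨s, hs, h0, h1, -⟩
    exact absurd (hn s hs h0) (by omega)
  rw [val_eq, he]
  cases c <;> simp

/-- With a legal move: the outcome is a candidate pair, whose first coordinate is maximal. -/
theorem val_spec (S : Finset ℕ) (c d : Conv) (h : ℕ) (hex : ∃ s ∈ S, 0 < s ∧ s ≤ h) :
    val S c d h ∈ cand S c d h ∧ ∀ p ∈ cand S c d h, p.1 ≤ (val S c d h).1 := by
  obtain ⟨s0, hs0, h0, h1⟩ := hex
  have hne : (cand S c d h).Nonempty := ⟨_, s0, hs0, h0, h1, rfl⟩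
  have hfin := cand_finite S c d h
  have hfin1 : (Prod.fst '' cand S c d h).Finite := hfin.image _
  have hmem : sSup (Prod.fst '' cand S c d h) ∈ Prod.fst '' cand S c d h :=
    Nat.sSup_mem (hne.image _) hfin1.bddAbove
  have hties : {y | (sSup (Prod.fst '' cand S c d h), y) ∈ cand S c d h}.Nonempty := by
    obtain ⟨p, hp, hpe⟩ := hmem
    exact ⟨p.2, by rw [← hpe]; exact hp⟩
  have htfin : {y | (sSup (Prod.fst '' cand S c d h), y) ∈ cand S c d h}.Finite := by
    refine (hfin.image Prod.snd).subset ?_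
    intro y hy
    exact ⟨_, hy, rfl⟩
  constructor
  · rw [val_eq]
    cases c
    · exact Nat.sSup_mem hties htfin.bddAbove
    · exact Nat.sInf_mem hties
  · intro p hp
    rw [val_eq]
    exact le_csSup hfin1.bddAbove ⟨p, hp, rfl⟩

/-- The zero-sum value of the game. -/
noncomputable def V (S : Finset ℕ) (h : ℕ) : ℤ :=
  sSup {x : ℤ | ∃ s, ∃ _ : s ∈ S ∧ 0 < s ∧ s ≤ h, x = (s : ℤ) - V S (h - s)}
termination_by h
decreasing_by omega

theorem V_spec (S : Finset ℕ) (h : ℕ) (hex : ∃ s ∈ S, 0 < s ∧ s ≤ h) :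
    (∃ s ∈ S, 0 < s ∧ s ≤ h ∧ V S h = (s : ℤ) - V S (h - s)) ∧
    ∀ s ∈ S, 0 < s → s ≤ h → (s : ℤ) - V S (h - s) ≤ V S h := by
  obtain ⟨s0, hs0, h0, h1⟩ := hex
  set T : Set ℤ := {x : ℤ | ∃ s, ∃ _ : s ∈ S ∧ 0 < s ∧ s ≤ h, x = (s : ℤ) - V S (h - s)} with hT
  have hV : V S h = sSup T := by rw [V]
  have hfin : T.Finite := by
    refine Set.Finite.subset (S.finite_toSet.image (fun s : ℕ => (s : ℤ) - V S (h - s))) ?_
    rintro p ⟨s, hs, rfl⟩
    exact ⟨s, hs.1, rfl⟩
  have hne : T.Nonempty := ⟨_, s0, ⟨hs0, h0, h1⟩, rfl⟩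
  have hmem : sSup T ∈ T := Int.csSup_mem hne hfin.bddAbove
  constructor
  · obtain ⟨s, hs, he⟩ := hmem
    exact ⟨s, hs.1, hs.2.1, hs.2.2, by rw [hV]; exact he⟩
  · intro s hs hs0 hs1
    rw [hV]
    exact le_csSup hfin.bddAbove ⟨s, ⟨hs, hs0, hs1⟩, rfl⟩

theorem V_of_no_move (S : Finset ℕ) (h : ℕ) (hn : ∀ s ∈ S, 0 < s → h < s) : V S h = 0 := by
  have he : {x : ℤ | ∃ s, ∃ _ : s ∈ S ∧ 0 < s ∧ s ≤ h, x = (s : ℤ) - V S (h - s)} = ∅ := by
    ext p
    simp only [Set.mem_ofPred_eq, Set.mem_empty_iff_false, iff_false]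
    rintro ⟨s, ⟨hs, h0, h1⟩, -⟩
    exact absurd (hn s hs h0) (by omega)
  rw [V, he]
  simp

theorem main (S : Finset ℕ) (m : ℕ) (hm : m ∈ S) (hm0 : 0 < m) (hmin : ∀ s ∈ S, m ≤ s) (h : ℕ) :
    ∀ c d : Conv,
      ((val S c d h).1 : ℤ) + (val S c d h).2 ≤ h ∧
      (h : ℤ) + V S h - (m - 1) ≤ 2 * (val S c d h).1 ∧
      (h : ℤ) - V S h - (m - 1) ≤ 2 * (val S c d h).2 := by
  induction h using Nat.strong_induction_on with
  | _ h ih =>
    intro c d
    by_cases hlt : h < m
    · have hn : ∀ s ∈ S, 0 < s → h < s := fun s hs _ => lt_of_lt_of_le hlt (hmin s hs)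
      rw [val_of_no_move S c d h hn, V_of_no_move S h hn]
      refine ⟨?_, ?_, ?_⟩ <;> simp <;> omega
    · push Not at hlt
      have hex : ∃ s ∈ S, 0 < s ∧ s ≤ h := ⟨m, hm, hm0, hlt⟩
      obtain ⟨hmem, hmax⟩ := val_spec S c d h hex
      obtain ⟨⟨s, hs, hs0, hs1, hVs⟩, hVmax⟩ := V_spec S h hex
      obtain ⟨t, ht, ht0, ht1, hte⟩ := hmem
      have iht := ih (h - t) (by omega) d c
      have ihs := ih (h - s) (by omega) d c
      have hVt := hVmax t ht ht0 ht1
      have hbest := hmax _ ⟨s, hs, hs0, hs1, rfl⟩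
      have e1 : (val S c d h).1 = t + (val S d c (h - t)).2 := by rw [hte]
      have e2 : (val S c d h).2 = (val S d c (h - t)).1 := by rw [hte]
      simp only at hbest
      have ct : ((h - t : ℕ) : ℤ) = (h : ℤ) - t := by push_cast [ht1]; ring
      have cs : ((h - s : ℕ) : ℤ) = (h : ℤ) - s := by push_cast [hs1]; ring
      rw [ct] at iht
      rw [cs] at ihs
      obtain ⟨i1, i2, i3⟩ := iht
      obtain ⟨j1, j2, j3⟩ := ihs
      have e1' : ((val S c d h).1 : ℤ) = t + (val S d c (h - t)).2 := by exact_mod_cast e1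
      have e2' : ((val S c d h).2 : ℤ) = (val S d c (h - t)).1 := by exact_mod_cast e2
      have hbest' : (s : ℤ) + (val S d c (h - s)).2 ≤ (val S c d h).1 := by exact_mod_cast hbest
      refine ⟨?_, ?_, ?_⟩
      · rw [e1', e2']; linarith
      · linarith
      · rw [e2']; linarith

/-- Every discrepancy is at most `min S - 1` in absolute value, for every finite set `S` of
positive integers, every two settings and every heap size. -/
theorem result (S : Finset ℕ) (hne : S.Nonempty) (hpos : ∀ s ∈ S, 0 < s)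
    (c d c' d' : Conv) (i : Bool) (h : ℕ) :
    |(total S c' d' i h : ℤ) - (total S c d i h : ℤ)| ≤ (S.min' hne : ℤ) - 1 := by
  have hm : S.min' hne ∈ S := S.min'_mem hne
  have hm0 : 0 < S.min' hne := hpos _ hm
  have hmin : ∀ s ∈ S, S.min' hne ≤ s := fun s hs => S.min'_le s hs
  obtain ⟨a1, a2, a3⟩ := main S _ hm hm0 hmin h c d
  obtain ⟨b1, b2, b3⟩ := main S _ hm hm0 hmin h c' d'
  rw [abs_le]
  cases i
  · simp only [total, Bool.false_eq_true, if_false]
    constructor <;> linarith
  · simp only [total, if_true]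
    constructor <;> linarith

end Pool.Agent.Results.MP_5cfb27_co.DiscrepancyBound
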